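import Mathlib

namespace Pool.Agent.Results.MP_40d7e0_al.LambdaStarOne

open Equiv

/-- `a` acts on words over `{0, 1}` (`false` is `0`, `true` is `1`) by flipping the first
letter. -/
def aFun : List Bool → List Bool
  | [] => []
  | x :: w => (!x) :: w

mutual
/-- `b(0w) = 0 a(w)`, `b(1w) = 1 c(w)`. -/
def bFun : List Bool → List Bool
  | [] => []
  | false :: w => false :: aFun w
  | true :: w => true :: cFun w
/-- `c(0w) = 0 a(w)`, `c(1w) = 1 d(w)`. -/
def cFun : List Bool → List Bool
  | [] => []
  | false :: w => false :: aFun w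
  | true :: w => true :: dFun w
/-- `d(0w) = 0w`, `d(1w) = 1 b(w)`. -/
def dFun : List Bool → List Bool
  | [] => []
  | false :: w => false :: w
  | true :: w => true :: bFun w
end

theorem a_a (w : List Bool) : aFun (aFun w) = w := by
  cases w <;> simp [aFun]

theorem bcd_invol (w : List Bool) :
    bFun (bFun w) = w ∧ cFun (cFun w) = w ∧ dFun (dFun w) = w := by
  induction w with
  | nil => simp [bFun, cFun, dFun]
  | cons x w ih => cases x <;> simp [bFun, cFun, dFun, a_a, ih]

theorem bc_eq (w : List Bool) :
    bFun (cFun w) = dFun w ∧ cFun (bFun w) = dFun w ∧ cFun (dFun w) = bFun w ∧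
      dFun (cFun w) = bFun w ∧ dFun (bFun w) = cFun w ∧ bFun (dFun w) = cFun w := by
  induction w with
  | nil => simp [bFun, cFun, dFun]
  | cons x w ih => cases x <;> simp [bFun, cFun, dFun, a_a, ih]

/-- The generator `a` as a permutation of the set of finite words. -/
def a : Perm (List Bool) := ⟨aFun, aFun, a_a, a_a⟩
/-- The generator `b`. -/
def b : Perm (List Bool) := ⟨bFun, bFun, fun w => (bcd_invol w).1, fun w => (bcd_invol w).1⟩
/-- The generator `c`. -/
def c : Perm (List Bool) := ⟨cFun, cFun, fun w => (bcd_invol w).2.1, fun w => (bcd_invol w).2.1⟩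
/-- The generator `d`. -/
def d : Perm (List Bool) := ⟨dFun, dFun, fun w => (bcd_invol w).2.2, fun w => (bcd_invol w).2.2⟩

/-- The first Grigorchuk group `G = ⟨a, b, c, d⟩`. -/
def G : Subgroup (Perm (List Bool)) := Subgroup.closure {a, b, c, d}

/-- Word length with respect to `{a, b, c, d}` (all four generators are involutions): the least
number of factors in a product of generators equal to `g`. -/
noncomputable def wordLength (g : Perm (List Bool)) : ℕ :=
  sInf {k | ∃ l : List (Perm (List Bool)),
    (∀ s ∈ l, s ∈ ({a, b, c, d} : Set (Perm (List Bool)))) ∧ l.length = k ∧ l.prod = g}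

/-- `h` is the section `g_u`: `g (u w) = g(u) h(w)` for all words `w`. -/
def IsSection (g : Perm (List Bool)) (u : List Bool) (h : Perm (List Bool)) : Prop :=
  ∀ w : List Bool, g (u ++ w) = g u ++ h w

/-- The depth `d(g)`: the least `n` such that `g_u ∈ {1, a, b, c, d}` for all words `u` of
length `n`. -/
noncomputable def depth (g : Perm (List Bool)) : ℕ :=
  sInf {n | ∀ u : List Bool, u.length = n →
    ∃ h ∈ ({1, a, b, c, d} : Set (Perm (List Bool))), IsSection g u h}

/-- The set of all `lam` for which there is `C` with `d(g) ≤ lam log₂|g| + C` for all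
`g ≠ 1` in `G`. -/
def Lam : Set ℝ := {lam | ∃ C : ℝ, ∀ g : G, g ≠ 1 →
  (depth g : ℝ) ≤ lam * Real.logb 2 (wordLength g) + C}

/-! ### Elementary facts -/

/-- The generating set. -/
def gens : Set (Perm (List Bool)) := {a, b, c, d}

theorem aa : a * a = 1 := by ext1 w; exact a_a w
theorem bb : b * b = 1 := by ext1 w; exact (bcd_invol w).1
theorem cc : c * c = 1 := by ext1 w; exact (bcd_invol w).2.1
theorem dd : d * d = 1 := by ext1 w; exact (bcd_invol w).2.2
theorem bc : b * c = d := by ext1 w; exact (bc_eq w).1
theorem cb : c * b = d := by ext1 w; exact (bc_eq w).2.1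
theorem cd : c * d = b := by ext1 w; exact (bc_eq w).2.2.1
theorem dc : d * c = b := by ext1 w; exact (bc_eq w).2.2.2.1
theorem db : d * b = c := by ext1 w; exact (bc_eq w).2.2.2.2.1
theorem bd : b * d = c := by ext1 w; exact (bc_eq w).2.2.2.2.2

theorem mem_G_iff (g : Perm (List Bool)) :
    g ∈ G ↔ ∃ l : List (Perm (List Bool)), (∀ s ∈ l, s ∈ gens) ∧ l.prod = g := by
  constructor
  · intro hg
    have hinv : ∀ x ∈ gens, x⁻¹ ∈ gens := by
      intro x hx
      simp only [gens, Set.mem_insert_iff, Set.mem_singleton_iff] at hx ⊢
      rcases hx with rfl | rfl | rfl | rfl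
      · left; exact inv_eq_of_mul_eq_one_left aa
      · right; left; exact inv_eq_of_mul_eq_one_left bb
      · right; right; left; exact inv_eq_of_mul_eq_one_left cc
      · right; right; right; exact inv_eq_of_mul_eq_one_left dd
    change g ∈ Subgroup.closure gens at hg
    induction hg using Subgroup.closure_induction with
    | mem x hx => exact ⟨[x], by simpa using hx, by simp⟩
    | one => exact ⟨[], by simp, rfl⟩
    | mul x y _ _ hx hy =>
      obtain ⟨l, hl, rfl⟩ := hx
      obtain ⟨m, hm, rfl⟩ := hy
      refine ⟨l ++ m, ?_, by simp⟩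
      intro s hs
      rcases List.mem_append.1 hs with h | h
      · exact hl s h
      · exact hm s h
    | inv x _ hx =>
      obtain ⟨l, hl, rfl⟩ := hx
      refine ⟨(l.map (fun x => x⁻¹)).reverse, ?_, by rw [List.prod_inv_reverse]⟩
      intro s hs
      simp only [List.mem_reverse, List.mem_map] at hs
      obtain ⟨y, hy, rfl⟩ := hs
      exact hinv y (hl y hy)
  · rintro ⟨l, hl, rfl⟩
    exact Subgroup.list_prod_mem _ fun s hs => Subgroup.subset_closure (hl s hs)

theorem wordLength_le {l : List (Perm (List Bool))} (hl : ∀ s ∈ l, s ∈ gens) :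
    wordLength l.prod ≤ l.length :=
  Nat.sInf_le ⟨l, hl, rfl, rfl⟩

theorem exists_geodesic {g : Perm (List Bool)} (hg : g ∈ G) :
    ∃ l : List (Perm (List Bool)), (∀ s ∈ l, s ∈ gens) ∧ l.length = wordLength g ∧
      l.prod = g := by
  obtain ⟨l, hl, hlg⟩ := (mem_G_iff g).1 hg
  have : wordLength g ∈ {k | ∃ l : List (Perm (List Bool)),
      (∀ s ∈ l, s ∈ ({a, b, c, d} : Set (Perm (List Bool)))) ∧ l.length = k ∧ l.prod = g} :=
    Nat.sInf_mem ⟨l.length, l, hl, rfl, hlg⟩
  exact this

theorem IsSection.mul {g g' h h' : Perm (List Bool)} {u : List Bool}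
    (hs : IsSection g (g' u) h) (hs' : IsSection g' u h') : IsSection (g * g') u (h * h') := by
  intro w
  rw [Perm.mul_apply, hs' w, hs, Perm.mul_apply, Perm.mul_apply]

theorem IsSection.append {g h k : Perm (List Bool)} {u v : List Bool}
    (hs : IsSection g u h) (hs' : IsSection h v k) : IsSection g (u ++ v) k := by
  intro w
  rw [List.append_assoc, hs, hs' w, hs v, List.append_assoc]

theorem IsSection.unique {g h h' : Perm (List Bool)} {u : List Bool}
    (hs : IsSection g u h) (hs' : IsSection g u h') : h = h' := by
  ext1 w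
  exact List.append_cancel_left ((hs w).symm.trans (hs' w))

theorem isSection_one (u : List Bool) : IsSection 1 u 1 := fun _ => rfl

theorem isSection_nil {g : Perm (List Bool)} (hg : g [] = []) : IsSection g [] g := by
  intro w; rw [hg]; rfl

theorem gens_nil {s : Perm (List Bool)} (hs : s ∈ gens) : s [] = [] := by
  simp only [gens, Set.mem_insert_iff, Set.mem_singleton_iff] at hs
  rcases hs with rfl | rfl | rfl | rfl
  · rfl
  · change bFun [] = []; simp [bFun]
  · change cFun [] = []; simp [cFun]
  · change dFun [] = []; simp [dFun]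

/-- sections of the generators at the two vertices of the first level -/
theorem sec_a (x : Bool) : IsSection a [x] 1 ∧ a [x] = [!x] := ⟨fun _ => rfl, rfl⟩
theorem sec_b0 : IsSection b [false] a ∧ b [false] = [false] := by
  constructor
  · intro w; change bFun (false :: w) = bFun [false] ++ aFun w; simp [bFun, aFun]
  · change bFun [false] = [false]; simp [bFun, aFun]
theorem sec_b1 : IsSection b [true] c ∧ b [true] = [true] := by
  constructor
  · intro w; change bFun (true :: w) = bFun [true] ++ cFun w; simp [bFun, cFun]
  · change bFun [true] = [true]; simp [bFun, cFun]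
theorem sec_c0 : IsSection c [false] a ∧ c [false] = [false] := by
  constructor
  · intro w; change cFun (false :: w) = cFun [false] ++ aFun w; simp [cFun, aFun]
  · change cFun [false] = [false]; simp [cFun, aFun]
theorem sec_c1 : IsSection c [true] d ∧ c [true] = [true] := by
  constructor
  · intro w; change cFun (true :: w) = cFun [true] ++ dFun w; simp [cFun, dFun]
  · change cFun [true] = [true]; simp [cFun, dFun]
theorem sec_d0 : IsSection d [false] 1 ∧ d [false] = [false] := by
  constructor
  · intro w; change dFun (false :: w) = dFun [false] ++ w; simp [dFun]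
  · change dFun [false] = [false]; simp [dFun]
theorem sec_d1 : IsSection d [true] b ∧ d [true] = [true] := by
  constructor
  · intro w; change dFun (true :: w) = dFun [true] ++ bFun w; simp [dFun, bFun]
  · change dFun [true] = [true]; simp [dFun, bFun]

/-- number of letters of `l` different from `a` -/
noncomputable def nb (l : List (Perm (List Bool))) : ℕ := by
  classical exact (l.filter (fun s => s ≠ a)).length

theorem nb_cons_a (l : List (Perm (List Bool))) : nb (a :: l) = nb l := by
  classical
  simp [nb]

theorem nb_cons_ne {s : Perm (List Bool)} (hs : s ≠ a) (l : List (Perm (List Bool))) :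
    nb (s :: l) = nb l + 1 := by
  classical
  simp [nb, hs]

theorem section_word (l : List (Perm (List Bool))) (hl : ∀ s ∈ l, s ∈ gens) (x : Bool) :
    ∃ m : List (Perm (List Bool)), (∀ s ∈ m, s ∈ gens) ∧ m.length ≤ nb l ∧
      IsSection l.prod [x] m.prod ∧ ∃ y : Bool, l.prod [x] = [y] := by
  induction l with
  | nil => exact ⟨[], by simp, by simp, isSection_one _, x, rfl⟩
  | cons s l ih =>
    obtain ⟨m, hm, hlen, hsec, y, hy⟩ := ih (fun t ht => hl t (List.mem_cons_of_mem _ ht))
    have hs := hl s List.mem_cons_self
    by_cases hsa : s = a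
    · subst hsa
      refine ⟨m, hm, by rw [nb_cons_a]; exact hlen, ?_, !y, ?_⟩
      · rw [List.prod_cons]
        have := IsSection.mul (g := a) (g' := l.prod) (u := [x]) (h := 1) (h' := m.prod)
          (by rw [hy]; exact (sec_a y).1) hsec
        rwa [one_mul] at this
      · rw [List.prod_cons, Perm.mul_apply, hy]
        exact (sec_a y).2
    · have key : ∃ t : List (Perm (List Bool)), (∀ s ∈ t, s ∈ gens) ∧ t.length ≤ 1 ∧
          IsSection s [y] t.prod ∧ s [y] = [y] := by
        simp only [gens, Set.mem_insert_iff, Set.mem_singleton_iff] at hs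
        rcases hs with rfl | rfl | rfl | rfl
        · exact absurd rfl hsa
        · cases y
          · exact ⟨[a], by simp [gens], by simp, by simpa using sec_b0.1, sec_b0.2⟩
          · exact ⟨[c], by simp [gens], by simp, by simpa using sec_b1.1, sec_b1.2⟩
        · cases y
          · exact ⟨[a], by simp [gens], by simp, by simpa using sec_c0.1, sec_c0.2⟩
          · exact ⟨[d], by simp [gens], by simp, by simpa using sec_c1.1, sec_c1.2⟩
        · cases y
          · exact ⟨[], by simp, by simp, by simpa using sec_d0.1, sec_d0.2⟩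
          · exact ⟨[b], by simp [gens], by simp, by simpa using sec_d1.1, sec_d1.2⟩
      obtain ⟨t, ht, htl, hts, hty⟩ := key
      refine ⟨t ++ m, ?_, ?_, ?_, y, ?_⟩
      · intro z hz
        rcases List.mem_append.1 hz with h | h
        · exact ht z h
        · exact hm z h
      · rw [nb_cons_ne hsa, List.length_append]
        omega
      · rw [List.prod_cons, List.prod_append]
        exact IsSection.mul (by rw [hy]; exact hts) hsec
      · rw [List.prod_cons, Perm.mul_apply, hy, hty]

/-- two consecutive letters from `{b, c, d}` can be shortened -/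
theorem shorten {s t : Perm (List Bool)} (hs : s ∈ gens) (ht : t ∈ gens) (hsa : s ≠ a)
    (hta : t ≠ a) : ∃ r : List (Perm (List Bool)), (∀ s ∈ r, s ∈ gens) ∧ r.length ≤ 1 ∧
      r.prod = s * t := by
  simp only [gens, Set.mem_insert_iff, Set.mem_singleton_iff] at hs ht
  rcases hs with rfl | rfl | rfl | rfl
  · exact absurd rfl hsa
  · rcases ht with rfl | rfl | rfl | rfl
    · exact absurd rfl hta
    · exact ⟨[], by simp, by simp, by simp [bb]⟩
    · exact ⟨[d], by simp [gens], by simp, by simp [bc]⟩
    · exact ⟨[c], by simp [gens], by simp, by simp [bd]⟩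
  · rcases ht with rfl | rfl | rfl | rfl
    · exact absurd rfl hta
    · exact ⟨[d], by simp [gens], by simp, by simp [cb]⟩
    · exact ⟨[], by simp, by simp, by simp [cc]⟩
    · exact ⟨[b], by simp [gens], by simp, by simp [cd]⟩
  · rcases ht with rfl | rfl | rfl | rfl
    · exact absurd rfl hta
    · exact ⟨[c], by simp [gens], by simp, by simp [db]⟩
    · exact ⟨[b], by simp [gens], by simp, by simp [dc]⟩
    · exact ⟨[], by simp, by simp, by simp [dd]⟩

theorem normal_form (n : ℕ) : ∀ l : List (Perm (List Bool)), l.length ≤ n →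
    (∀ s ∈ l, s ∈ gens) → ∃ l' : List (Perm (List Bool)), (∀ s ∈ l', s ∈ gens) ∧
      l'.length ≤ l.length ∧ l'.prod = l.prod ∧ 2 * nb l' ≤ l'.length + 1 ∧
      (2 * nb l' ≤ l'.length ∨ ∃ s m, l' = s :: m ∧ s ≠ a) := by
  induction n with
  | zero =>
    intro l hl _
    have : l = [] := List.eq_nil_of_length_eq_zero (by omega)
    subst this
    exact ⟨[], by simp, by simp, rfl, by simp [nb], by simp [nb]⟩
  | succ n ih =>
    intro l hl hg
    match l with
    | [] => exact ⟨[], by simp, by simp, rfl, by simp [nb], by simp [nb]⟩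
    | s :: l =>
      obtain ⟨l', hl', hlen, hprod, h1, h2⟩ := ih l (by simpa using hl)
        (fun t ht => hg t (List.mem_cons_of_mem _ ht))
      by_cases hsa : s = a
      · subst hsa
        refine ⟨a :: l', ?_, by simpa using hlen, by simp [hprod], ?_, ?_⟩
        · intro z hz
          rcases List.mem_cons.1 hz with h | h
          · rw [h]; simp [gens]
          · exact hl' z h
        · rw [nb_cons_a, List.length_cons]; omega
        · left; rw [nb_cons_a, List.length_cons]; omega
      · rcases h2 with h2 | ⟨t, m, rfl, hta⟩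
        · refine ⟨s :: l', ?_, by simpa using hlen, by simp [hprod], ?_,
            Or.inr ⟨s, l', rfl, hsa⟩⟩
          · intro z hz
            rcases List.mem_cons.1 hz with h | h
            · rw [h]; exact hg s List.mem_cons_self
            · exact hl' z h
          · rw [nb_cons_ne hsa, List.length_cons]; omega
        · obtain ⟨r, hr, hrl, hrp⟩ := shorten (hg s List.mem_cons_self)
            (hl' t List.mem_cons_self) hsa hta
          obtain ⟨l'', hl'', hlen'', hprod'', h1'', h2''⟩ := ih (r ++ m)
            (by rw [List.length_append]; rw [List.length_cons] at hlen hl; omega)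
            (by
              intro z hz
              rcases List.mem_append.1 hz with h | h
              · exact hr z h
              · exact hl' z (List.mem_cons_of_mem _ h))
          refine ⟨l'', hl'', ?_, ?_, h1'', h2''⟩
          · rw [List.length_append] at hlen''
            rw [List.length_cons] at hlen ⊢
            omega
          · rw [hprod'', List.prod_append, hrp, List.prod_cons, ← hprod, List.prod_cons,
              mul_assoc]

theorem section_length {g : Perm (List Bool)} (hg : g ∈ G) (x : Bool) :
    ∃ h ∈ G, IsSection g [x] h ∧ 2 * wordLength h ≤ wordLength g + 1 ∧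
      ∃ y : Bool, g [x] = [y] := by
  obtain ⟨l, hl, hlen, rfl⟩ := exists_geodesic hg
  obtain ⟨l', hl', hlen', hprod, h1, -⟩ := normal_form l.length l le_rfl hl
  obtain ⟨m, hm, hml, hms, y, hy⟩ := section_word l' hl' x
  refine ⟨m.prod, (mem_G_iff _).2 ⟨m, hm, rfl⟩, by rw [← hprod]; exact hms, ?_, y, by
    rw [← hprod]; exact hy⟩
  have := wordLength_le hm
  omega

theorem G_nil {g : Perm (List Bool)} (hg : g ∈ G) : g [] = [] := by
  obtain ⟨l, hl, rfl⟩ := (mem_G_iff g).1 hg
  induction l with
  | nil => rfl
  | cons s l ih =>
    rw [List.prod_cons, Perm.mul_apply,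
      ih (fun t ht => hl t (List.mem_cons_of_mem _ ht)) ((mem_G_iff _).2
        ⟨l, fun t ht => hl t (List.mem_cons_of_mem _ ht), rfl⟩)]
    exact gens_nil (hl s List.mem_cons_self)

theorem section_length' (u : List Bool) : ∀ {g : Perm (List Bool)}, g ∈ G →
    ∃ h ∈ G, IsSection g u h ∧ 2 ^ u.length * wordLength h + 1 ≤ wordLength g + 2 ^ u.length := by
  induction u with
  | nil => intro g hg; exact ⟨g, hg, isSection_nil (G_nil hg), by simp⟩
  | cons x u ih =>
    intro g hg
    obtain ⟨h, hh, hs, hlen, -⟩ := section_length hg x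
    obtain ⟨k, hk, hs', hlen'⟩ := ih hh
    refine ⟨k, hk, hs.append hs', ?_⟩
    rw [List.length_cons, pow_succ]
    nlinarith

theorem wordLength_le_one {g : Perm (List Bool)} (hg : g ∈ G) (h : wordLength g ≤ 1) :
    g ∈ ({1, a, b, c, d} : Set (Perm (List Bool))) := by
  obtain ⟨l, hl, hlen, rfl⟩ := exists_geodesic hg
  match l with
  | [] => simp
  | [s] =>
    have := hl s List.mem_cons_self
    simp only [gens, Set.mem_insert_iff, Set.mem_singleton_iff] at this
    simp only [List.prod_cons, List.prod_nil, mul_one, Set.mem_insert_iff,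
      Set.mem_singleton_iff]
    right
    exact this
  | s :: t :: m => simp only [List.length_cons] at hlen; omega

/-- if `|g| ≤ 2 ^ n` then `n` belongs to the set defining the depth -/
theorem depth_set {g : Perm (List Bool)} (hg : g ∈ G) {n : ℕ} (hn : wordLength g ≤ 2 ^ n) :
    ∀ u : List Bool, u.length = n →
      ∃ h ∈ ({1, a, b, c, d} : Set (Perm (List Bool))), IsSection g u h := by
  intro u hu
  obtain ⟨h, hh, hs, hlen⟩ := section_length' u hg
  refine ⟨h, wordLength_le_one hh ?_, hs⟩
  rw [hu] at hlen
  by_contra hlt
  have h2 : 2 ≤ wordLength h := by omega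
  have : 2 ^ n * 2 ≤ 2 ^ n * wordLength h := Nat.mul_le_mul_left _ h2
  omega

theorem wordLength_pos {g : Perm (List Bool)} (hg : g ∈ G) (h1 : g ≠ 1) :
    1 ≤ wordLength g := by
  obtain ⟨l, hl, hlen, rfl⟩ := exists_geodesic hg
  rw [← hlen]
  rcases l with _ | ⟨s, l⟩
  · exact absurd rfl h1
  · simp

theorem one_mem_Lam : (1 : ℝ) ∈ Lam := by
  refine ⟨1, fun g hg => ?_⟩
  have hg1 : (g : Perm (List Bool)) ≠ 1 := fun h => hg (Subtype.ext h)
  have hpos := wordLength_pos g.2 hg1
  set L := wordLength (g : Perm (List Bool)) with hL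
  have h1 : depth (g : Perm (List Bool)) ≤ Nat.clog 2 L :=
    Nat.sInf_le (depth_set g.2 (Nat.le_pow_clog (by norm_num) _))
  have hLpos : (0 : ℝ) < L := by exact_mod_cast hpos
  have h2 : ((Nat.clog 2 L : ℕ) : ℝ) ≤ Real.logb 2 L + 1 := by
    have h3 : ((Nat.clog 2 L : ℕ) : ℝ) = ((⌈Real.logb 2 (L : ℝ)⌉ : ℤ) : ℝ) := by
      have h4 : (⌈Real.logb ((2 : ℕ) : ℝ) (L : ℝ)⌉ : ℤ) = Int.clog 2 (L : ℝ) :=
        Real.ceil_logb_natCast hLpos.le
      rw [Int.clog_natCast] at h4
      rw [Nat.cast_ofNat] at h4
      rw [h4]
      simp
    rw [h3]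
    exact (Int.ceil_lt_add_one _).le
  have h5 : (depth (g : Perm (List Bool)) : ℝ) ≤ ((Nat.clog 2 L : ℕ) : ℝ) := by exact_mod_cast h1
  linarith

/-! ### The elements realising the bound -/

/-- Letters as an inductive type, for substitution. -/
inductive Letter
  | a | b | c | d

/-- Evaluation of letters. -/
def Letter.val : Letter → Perm (List Bool)
  | .a => LambdaStarOne.a
  | .b => LambdaStarOne.b
  | .c => LambdaStarOne.c
  | .d => LambdaStarOne.d

/-- The substitution `a ↦ b`, `b ↦ ada`, `c ↦ aba`, `d ↦ aca`. -/
def subst : Letter → List Letter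
  | .a => [.b]
  | .b => [.a, .d, .a]
  | .c => [.a, .b, .a]
  | .d => [.a, .c, .a]

/-- The value of a word. -/
def ev (l : List Letter) : Perm (List Bool) := (l.map Letter.val).prod

theorem ev_gens (l : List Letter) : ∀ s ∈ l.map Letter.val, s ∈ gens := by
  intro s hs
  obtain ⟨t, -, rfl⟩ := List.mem_map.1 hs
  cases t <;> simp [Letter.val, gens]

theorem ev_append (l m : List Letter) : ev (l ++ m) = ev l * ev m := by
  simp [ev]

theorem ev_subst (s : Letter) : IsSection (ev (subst s)) [false] s.val ∧
    ev (subst s) [false] = [false] := by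
  cases s
  · simpa [ev, subst, Letter.val] using sec_b0
  · have h1 : IsSection (a * (d * a)) [false] (1 * (b * 1)) := by
      refine IsSection.mul ?_ (IsSection.mul ?_ (sec_a false).1)
      · rw [Perm.mul_apply, (sec_a false).2, Bool.not_false, sec_d1.2]
        exact (sec_a true).1
      · rw [(sec_a false).2]; exact sec_d1.1
    have h2 : (a * (d * a)) [false] = [false] := by
      rw [Perm.mul_apply, Perm.mul_apply, (sec_a false).2, Bool.not_false, sec_d1.2,
        (sec_a true).2]
      rfl
    simpa [ev, subst, Letter.val] using And.intro h1 h2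
  · have h1 : IsSection (a * (b * a)) [false] (1 * (c * 1)) := by
      refine IsSection.mul ?_ (IsSection.mul ?_ (sec_a false).1)
      · rw [Perm.mul_apply, (sec_a false).2, Bool.not_false, sec_b1.2]
        exact (sec_a true).1
      · rw [(sec_a false).2]; exact sec_b1.1
    have h2 : (a * (b * a)) [false] = [false] := by
      rw [Perm.mul_apply, Perm.mul_apply, (sec_a false).2, Bool.not_false, sec_b1.2,
        (sec_a true).2]
      rfl
    simpa [ev, subst, Letter.val] using And.intro h1 h2
  · have h1 : IsSection (a * (c * a)) [false] (1 * (d * 1)) := by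
      refine IsSection.mul ?_ (IsSection.mul ?_ (sec_a false).1)
      · rw [Perm.mul_apply, (sec_a false).2, Bool.not_false, sec_c1.2]
        exact (sec_a true).1
      · rw [(sec_a false).2]; exact sec_c1.1
    have h2 : (a * (c * a)) [false] = [false] := by
      rw [Perm.mul_apply, Perm.mul_apply, (sec_a false).2, Bool.not_false, sec_c1.2,
        (sec_a true).2]
      rfl
    simpa [ev, subst, Letter.val] using And.intro h1 h2

theorem ev_subst_word (l : List Letter) : IsSection (ev (l.flatMap subst)) [false] (ev l) ∧
    ev (l.flatMap subst) [false] = [false] := by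
  induction l with
  | nil => exact ⟨isSection_one _, rfl⟩
  | cons s l ih =>
    rw [List.flatMap_cons, ev_append]
    have h : ev (s :: l) = s.val * ev l := by simp [ev]
    rw [h]
    refine ⟨IsSection.mul ?_ ih.1, ?_⟩
    · rw [ih.2]; exact (ev_subst s).1
    · rw [Perm.mul_apply, ih.2]; exact (ev_subst s).2

/-- The words `l_k`. -/
def word : ℕ → List Letter
  | 0 => [.a, .b]
  | k + 1 => (word k).flatMap subst

/-- number of letters `a` and number of other letters -/
def cnt (l : List Letter) : ℕ × ℕ :=
  (l.countP (fun s => s matches .a), l.countP (fun s => !(s matches .a)))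

theorem cnt_append (l m : List Letter) : cnt (l ++ m) = cnt l + cnt m := by
  simp [cnt]

theorem cnt_subst (l : List Letter) :
    cnt (l.flatMap subst) = (2 * (cnt l).2, (cnt l).1 + (cnt l).2) := by
  induction l with
  | nil => simp [cnt]
  | cons s l ih =>
    rw [List.flatMap_cons, cnt_append, ih]
    have : cnt (s :: l) = cnt [s] + cnt l := cnt_append [s] l
    rw [this]
    cases s <;> simp [cnt, subst, Prod.ext_iff] <;> omega

theorem cnt_word (k : ℕ) : cnt (word k) = (2 ^ k, 2 ^ k) := by
  induction k with
  | zero => rfl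
  | succ k ih =>
    rw [word, cnt_subst, ih]
    simp [pow_succ]
    omega

theorem length_eq_cnt (l : List Letter) : l.length = (cnt l).1 + (cnt l).2 := by
  induction l with
  | nil => rfl
  | cons s l ih =>
    have : cnt (s :: l) = cnt [s] + cnt l := cnt_append [s] l
    rw [this, List.length_cons, ih]
    cases s <;> simp [cnt] <;> omega

theorem length_word (k : ℕ) : (word k).length = 2 ^ (k + 1) := by
  rw [length_eq_cnt, cnt_word, pow_succ]
  simp
  omega

theorem section_word_k (k : ℕ) :
    IsSection (ev (word k)) (List.replicate k false) (a * b) := by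
  induction k with
  | zero =>
    have : ev (word 0) = a * b := by simp [word, ev, Letter.val]
    rw [this]
    intro w
    rfl
  | succ k ih =>
    rw [List.replicate_succ]
    exact (ev_subst_word (word k)).1.append ih

theorem ev_mem (l : List Letter) : ev l ∈ G := (mem_G_iff _).2 ⟨_, ev_gens l, rfl⟩

/-- `a b` is not in `{1, a, b, c, d}` -/
theorem ab_not : a * b ∉ ({1, a, b, c, d} : Set (Perm (List Bool))) := by
  intro h
  have e1 : (a * b) [true, false, false] = [false, false, true] := by
    change aFun (bFun [true, false, false]) = _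
    simp [aFun, bFun, cFun]
  have e2 : (a * b) [false] = [true] := by
    change aFun (bFun [false]) = _
    simp [aFun, bFun]
  simp only [Set.mem_insert_iff, Set.mem_singleton_iff] at h
  rcases h with h | h | h | h | h
  · rw [h] at e2; simp at e2
  · rw [h] at e1
    change aFun [true, false, false] = _ at e1
    simp [aFun] at e1
  · rw [h] at e2
    change bFun [false] = _ at e2
    simp [bFun] at e2
  · rw [h] at e2
    change cFun [false] = _ at e2
    simp [cFun] at e2
  · rw [h] at e2
    change dFun [false] = _ at e2
    simp [dFun] at e2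

/-- the set `{1, a, b, c, d}` is closed under sections -/
theorem nucleus_section (u : List Bool) :
    ∀ h ∈ ({1, a, b, c, d} : Set (Perm (List Bool))),
      ∃ k ∈ ({1, a, b, c, d} : Set (Perm (List Bool))), IsSection h u k := by
  intro h hh
  have hG : h ∈ G := by
    simp only [Set.mem_insert_iff, Set.mem_singleton_iff] at hh
    rcases hh with rfl | rfl | rfl | rfl | rfl
    · exact one_mem _
    · exact Subgroup.subset_closure (by simp)
    · exact Subgroup.subset_closure (by simp)
    · exact Subgroup.subset_closure (by simp)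
    · exact Subgroup.subset_closure (by simp)
  have hlen : wordLength h ≤ 2 ^ u.length := by
    have h1 : wordLength h ≤ 1 := by
      simp only [Set.mem_insert_iff, Set.mem_singleton_iff] at hh
      rcases hh with rfl | rfl | rfl | rfl | rfl
      · exact (wordLength_le (l := []) (by simp)).trans (by simp)
      · have := wordLength_le (l := [a]) (by simp [gens]); simpa using this
      · have := wordLength_le (l := [b]) (by simp [gens]); simpa using this
      · have := wordLength_le (l := [c]) (by simp [gens]); simpa using this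
      · have := wordLength_le (l := [d]) (by simp [gens]); simpa using this
    exact h1.trans Nat.one_le_two_pow
  exact depth_set hG hlen u rfl

theorem depth_word (k : ℕ) : k + 1 ≤ depth (ev (word k)) := by
  unfold depth
  refine le_csInf ⟨_, depth_set (ev_mem (word k)) (Nat.le_pow_clog (by norm_num) _)⟩ ?_
  intro n hn
  by_contra hlt
  have hnk : n ≤ k := by omega
  obtain ⟨h, hh, hs⟩ := hn (List.replicate n false) (by simp)
  obtain ⟨h', hh', hs'⟩ := nucleus_section (List.replicate (k - n) false) h hh
  have h2 := hs.append hs'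
  rw [← List.replicate_add, Nat.add_sub_cancel' hnk] at h2
  have := h2.unique (section_word_k k)
  rw [this] at hh'
  exact ab_not hh'

theorem wordLength_word (k : ℕ) : wordLength (ev (word k)) ≤ 2 ^ (k + 1) := by
  have := wordLength_le (ev_gens (word k))
  rwa [List.length_map, length_word] at this

theorem ev_word_ne_one (k : ℕ) : ev (word k) ≠ 1 := by
  intro h
  have := (section_word_k k)
  rw [h] at this
  have h2 := this.unique (isSection_one _)
  exact ab_not (by rw [h2]; simp)

/-- **The optimal constant is `lam* = 1`**: `1` is the least real number `lam` for which there is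
a constant `C` with `d(g) ≤ lam log₂|g| + C` for all `g ≠ 1` in the Grigorchuk group. In
particular no `lam < 1` works. -/
theorem result : IsLeast Lam 1 := by
  refine ⟨one_mem_Lam, ?_⟩
  rintro lam ⟨C, hC⟩
  by_contra hlt
  push Not at hlt
  have hm : max lam 0 < 1 := max_lt hlt one_pos
  obtain ⟨k, hk⟩ := exists_nat_gt (C / (1 - max lam 0))
  have hk' : C < (1 - max lam 0) * (k + 1) := by
    have h1 : 0 < 1 - max lam 0 := by linarith
    rw [div_lt_iff₀ h1] at hk
    nlinarith
  have h1 := hC ⟨ev (word k), ev_mem _⟩ (fun h => ev_word_ne_one k (congrArg Subtype.val h))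
  have h2 : ((k : ℝ) + 1) ≤ (depth (ev (word k)) : ℝ) := by exact_mod_cast depth_word k
  have hpos := wordLength_pos (ev_mem (word k)) (ev_word_ne_one k)
  have hlog0 : 0 ≤ Real.logb 2 (wordLength (ev (word k)) : ℝ) :=
    Real.logb_nonneg (by norm_num) (by exact_mod_cast hpos)
  have hlog1 : Real.logb 2 (wordLength (ev (word k)) : ℝ) ≤ k + 1 := by
    rw [Real.logb_le_iff_le_rpow (by norm_num) (by exact_mod_cast hpos)]
    have := wordLength_word k
    have h3 : ((wordLength (ev (word k)) : ℕ) : ℝ) ≤ ((2 ^ (k + 1) : ℕ) : ℝ) := by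
      exact_mod_cast this
    refine h3.trans (le_of_eq ?_)
    push_cast
    rw [← Real.rpow_natCast]
    norm_num
  have h4 : lam * Real.logb 2 (wordLength (ev (word k)) : ℝ) ≤ max lam 0 * (k + 1) := by
    calc lam * Real.logb 2 (wordLength (ev (word k)) : ℝ)
        ≤ max lam 0 * Real.logb 2 (wordLength (ev (word k)) : ℝ) :=
          mul_le_mul_of_nonneg_right (le_max_left _ _) hlog0
      _ ≤ max lam 0 * (k + 1) := mul_le_mul_of_nonneg_left hlog1 (le_max_right _ _)
  simp only at h1
  linarith

end Pool.Agent.Results.MP_40d7e0_al.LambdaStarOne
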